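import Pool.Agent.K1H19.UC.Stm

/-!
# The necklace of four spheres is locally connected
-/

set_option autoImplicit false

namespace Pool.Agent.K1H9.UC

open Pool.Agent.K1H19.UC Topology

theorem loc_S : LocallyConnectedSpace S := by
  have : Fact (Module.finrank ℝ E3 = 2 + 1) := ⟨by simp⟩
  exact ChartedSpace.locallyConnectedSpace (EuclideanSpace ℝ (Fin 2)) S

/-- The two poles. -/
noncomputable def pole (b : Bool) : S := if b then e else -e

theorem g_mem (a b : Bool) (v : S) : (if a then (v, pole b) else (pole b, v) : S × S) ∈ XX := by
  cases a <;> cases b <;> simp [XX, pole]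

/-- The parametrization of the necklace. -/
noncomputable def g (x : (Bool × Bool) × S) : XX :=
  ⟨if x.1.1 then (x.2, pole x.1.2) else (pole x.1.2, x.2), g_mem _ _ _⟩

theorem g_cont : Continuous g := by
  rw [continuous_prod_of_discrete_left]
  rintro ⟨a, b⟩
  refine Continuous.subtype_mk ?_ _
  cases a
  · show Continuous (fun v : S => ((pole b, v) : S × S))
    exact Continuous.prodMk continuous_const continuous_id
  · show Continuous (fun v : S => ((v, pole b) : S × S))
    exact Continuous.prodMk continuous_id continuous_const

theorem g_surj : Function.Surjective g := by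
  rintro ⟨⟨x, y⟩, h⟩
  rcases h with h | h | h | h
  · exact ⟨((false, true), y), Subtype.ext (Prod.ext (by simpa [g, pole] using h.symm) rfl)⟩
  · exact ⟨((false, false), y), Subtype.ext (Prod.ext (by simpa [g, pole] using h.symm) rfl)⟩
  · exact ⟨((true, true), x), Subtype.ext (Prod.ext rfl (by simpa [g, pole] using h.symm))⟩
  · exact ⟨((true, false), x), Subtype.ext (Prod.ext rfl (by simpa [g, pole] using h.symm))⟩

/-- **UC-LC.** -/
theorem t_LC : S_LC := by
  have := loc_S
  exact (IsQuotientMap.of_surjective_continuous g_surj g_cont).locallyConnectedSpace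

end Pool.Agent.K1H9.UC
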